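import Pool.Agent.P.MP_f981b0_an.CD.Main

set_option autoImplicit false

open ContinuousLinearMap

namespace Pool.Agent.Results.MP_49c4d9_an.CompactDefect

/-- Let `q(z) = α |z|² + 2 Re (β z) + γ` with `α γ < |β|²`, so that `q ≥ 0` is a closed disc, a
closed half-plane or the closed exterior of a disc. Let `T` be an operator such that
`q(T) = α T* T + β T + conj β T* + γ` is compact and `q(G T G⁻¹) ≥ 0` for an invertible `G`.
If `T` is reductive, then `T` is normal. -/
theorem result {H : Type*} [NormedAddCommGroup H] [InnerProductSpace ℂ H] [CompleteSpace H]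
    (T : H →L[ℂ] H) (α γ : ℝ) (β : ℂ) (hd : α * γ < ‖β‖ ^ 2)
    (hK : IsCompactOperator ((α : ℂ) • (adjoint T * T) + β • T + (starRingEnd ℂ β) • adjoint T +
      (γ : ℂ) • (1 : H →L[ℂ] H) : H →L[ℂ] H))
    (G : H ≃L[ℂ] H)
    (hT : ∀ x : H, 0 ≤ α * ‖G (T x)‖ ^ 2 + 2 * (β * inner ℂ (G x) (G (T x))).re + γ * ‖G x‖ ^ 2)
    (hred : ∀ N : Submodule ℂ H, IsClosed (N : Set H) → (∀ x ∈ N, T x ∈ N) →
      ∀ x ∈ N, adjoint T x ∈ N) :
    IsStarNormal T := by
  have hc : ∀ x, (‖(G.symm : H →L[ℂ] H)‖ + 1)⁻¹ * ‖x‖ ≤ ‖(G : H →L[ℂ] H) x‖ := fun x => by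
    have h1 := (G.symm : H →L[ℂ] H).le_opNorm (G x)
    simp only [ContinuousLinearEquiv.coe_coe, ContinuousLinearEquiv.symm_apply_apply] at h1 ⊢
    rw [inv_mul_le_iff₀ (by positivity)]
    nlinarith [norm_nonneg (G x)]
  exact Pool.Agent.P.MP_f981b0_an.CD.main hd hK (G : H →L[ℂ] H) (by positivity) hc hT hred

/-- Special case: reductive contractions with compact defect. -/
theorem contraction {H : Type*} [NormedAddCommGroup H] [InnerProductSpace ℂ H] [CompleteSpace H]
    (T : H →L[ℂ] H) (hT : ‖T‖ ≤ 1) (hK : IsCompactOperator (1 - adjoint T * T : H →L[ℂ] H))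
    (hred : ∀ N : Submodule ℂ H, IsClosed (N : Set H) → (∀ x ∈ N, T x ∈ N) →
      ∀ x ∈ N, adjoint T x ∈ N) :
    IsStarNormal T := by
  refine result T (-1) 1 0 (by norm_num) ?_ (ContinuousLinearEquiv.refl ℂ H) (fun x => ?_) hred
  · convert hK using 2
    simp [sub_eq_neg_add]
  · have h1 : ‖T x‖ ≤ ‖x‖ := (T.le_opNorm x).trans (mul_le_of_le_one_left (norm_nonneg _) hT)
    have h2 := pow_le_pow_left₀ (norm_nonneg _) h1 2
    simp only [ContinuousLinearEquiv.refl_apply, zero_mul, Complex.zero_re]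
    linarith

/-- Special case: reductive dissipative operators with compact imaginary part. -/
theorem dissipative {H : Type*} [NormedAddCommGroup H] [InnerProductSpace ℂ H] [CompleteSpace H]
    (T : H →L[ℂ] H) (hT : ∀ x : H, 0 ≤ (inner ℂ x (T x)).im)
    (hK : IsCompactOperator (T - adjoint T : H →L[ℂ] H))
    (hred : ∀ N : Submodule ℂ H, IsClosed (N : Set H) → (∀ x ∈ N, T x ∈ N) →
      ∀ x ∈ N, adjoint T x ∈ N) :
    IsStarNormal T := by
  refine result T 0 0 (-Complex.I) (by simp) ?_ (ContinuousLinearEquiv.refl ℂ H) (fun x => ?_) hred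
  · have e : (((0 : ℝ) : ℂ) • (adjoint T * T) + (-Complex.I) • T +
        (starRingEnd ℂ (-Complex.I)) • adjoint T + ((0 : ℝ) : ℂ) • (1 : H →L[ℂ] H) : H →L[ℂ] H) =
        (-Complex.I) • (T - adjoint T) := by
      simp [sub_eq_add_neg]
    rw [e]
    exact hK.smul (-Complex.I)
  · have := hT x
    simp only [ContinuousLinearEquiv.refl_apply, zero_mul, zero_add, add_zero]
    simp only [Complex.mul_re, Complex.neg_re, Complex.neg_im, Complex.I_re, Complex.I_im]
    linarith

end Pool.Agent.Results.MP_49c4d9_an.CompactDefect
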