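import Pool.Agent.P.MP_49c4d9_an.HY.Main

set_option autoImplicit false

namespace Pool.Agent.Results.MP_49c4d9_an.HyponormalReductive

/-- A hyponormal (`‖T* x‖ ≤ ‖T x‖` for all `x`) or cohyponormal operator on a complex Hilbert
space, all of whose closed invariant subspaces are invariant under the adjoint, is normal. -/
theorem result {H : Type*} [NormedAddCommGroup H] [InnerProductSpace ℂ H] [CompleteSpace H]
    (T : H →L[ℂ] H)
    (hT : (∀ x : H, ‖ContinuousLinearMap.adjoint T x‖ ≤ ‖T x‖) ∨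
      ∀ x : H, ‖T x‖ ≤ ‖ContinuousLinearMap.adjoint T x‖)
    (hred : ∀ K : Submodule ℂ H, IsClosed (K : Set H) → (∀ x ∈ K, T x ∈ K) →
      ∀ x ∈ K, ContinuousLinearMap.adjoint T x ∈ K) : IsStarNormal T :=
  Pool.Agent.P.MP_49c4d9_an.HY.main hT hred

end Pool.Agent.Results.MP_49c4d9_an.HyponormalReductive
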