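import Pool.Agent.P.MP_49c4d9_an.NN.Main

set_option autoImplicit false

namespace Pool.Agent.Results.MP_49c4d9_an.NonNormalReductive

/-- On every separable infinite-dimensional complex Hilbert space there is a bounded operator which
is not normal and whose closed invariant subspaces are all invariant under its adjoint. -/
theorem result {H : Type*} [NormedAddCommGroup H] [InnerProductSpace ℂ H] [CompleteSpace H]
    [TopologicalSpace.SeparableSpace H] (hH : ¬ FiniteDimensional ℂ H) :
    ∃ T : H →L[ℂ] H,
      (∀ K : Submodule ℂ H, IsClosed (K : Set H) → (∀ x ∈ K, T x ∈ K) →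
        ∀ x ∈ K, ContinuousLinearMap.adjoint T x ∈ K) ∧ ¬ IsStarNormal T :=
  Pool.Agent.P.MP_49c4d9_an.NN.main hH

end Pool.Agent.Results.MP_49c4d9_an.NonNormalReductive
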