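import Mathlib
import Pool.Agent.P.MP_49c4d9_an.TC.Main

set_option autoImplicit false

namespace Pool.Agent.Results.MP_49c4d9_an.TraceClassReductive

section Defs

variable {H : Type} [NormedAddCommGroup H] [InnerProductSpace ℂ H] [CompleteSpace H]

/-- Every closed invariant subspace of `T` is invariant under the adjoint of `T`. -/
def IsReductive (T : H →L[ℂ] H) : Prop :=
  ∀ M : Submodule ℂ H, IsClosed (M : Set H) → (∀ x ∈ M, T x ∈ M) →
    ∀ x ∈ M, ContinuousLinearMap.adjoint T x ∈ M

/-- `T x - N x = ∑ ⟨v n, x⟩ u n` with `N` normal and `∑ ‖u n‖ ‖v n‖ < ∞`. -/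
def IsTraceClassPerturbationOfNormal (T : H →L[ℂ] H) : Prop :=
  ∃ (N : H →L[ℂ] H) (u v : ℕ → H), IsStarNormal N ∧ Summable (fun n => ‖u n‖ * ‖v n‖) ∧
    ∀ x, HasSum (fun n => inner ℂ (v n) x • u n) (T x - N x)

/-- `T` is unitarily equivalent to the restriction to a reducing subspace of a trace class
perturbation `S` of a normal operator on some Hilbert space `K`. -/
def IsSummandOfTraceClassPerturbation (T : H →L[ℂ] H) : Prop :=
  ∃ (K : Type) (_ : NormedAddCommGroup K) (_ : InnerProductSpace ℂ K) (_ : CompleteSpace K)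
    (V : H →ₗᵢ[ℂ] K) (S : K →L[ℂ] K), IsTraceClassPerturbationOfNormal S ∧
      (∀ x, S (V x) = V (T x)) ∧
      ∀ x, ContinuousLinearMap.adjoint S (V x) = V (ContinuousLinearMap.adjoint T x)

end Defs

/-- A reductive operator that is an orthogonal direct summand of a trace class perturbation of a
normal operator is normal. -/
theorem result (H : Type) [NormedAddCommGroup H] [InnerProductSpace ℂ H] [CompleteSpace H]
    (T : H →L[ℂ] H) (hT : IsSummandOfTraceClassPerturbation T) (hred : IsReductive T) :
    IsStarNormal T := by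
  obtain ⟨K, _, _, _, V, S, ⟨N, u, v, hN, huv, hS⟩, h1, h2⟩ := hT
  exact Pool.Agent.P.MP_49c4d9_an.TC.normal_of_reductive_summand V hN huv hS h1 h2 hred

/-- The case `K = H`: a reductive trace class perturbation of a normal operator is normal. -/
theorem of_traceClass (H : Type) [NormedAddCommGroup H] [InnerProductSpace ℂ H] [CompleteSpace H]
    (T : H →L[ℂ] H) (hT : IsTraceClassPerturbationOfNormal T) (hred : IsReductive T) :
    IsStarNormal T :=
  result H T ⟨H, _, _, _, LinearIsometry.id, T, hT, fun _ => rfl, fun _ => rfl⟩ hred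

end Pool.Agent.Results.MP_49c4d9_an.TraceClassReductive
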